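import Mathlib
import Pool.Agent.V11333.RandomSets

/-!
# MP_b91784_pr: the strong law with small common expectation fails in `ℓ²`
-/

set_option autoImplicit false

open MeasureTheory ProbabilityTheory Filter Topology Pointwise

namespace Pool.Agent.Results.MP_b91784_pr.NoSmallExpectationLaw

open Pool.Agent.V11333.RandomSets

/-- Disproof of Q1 for the B-convex space `ℓ²`: there is an `ε > 0` (in fact `ε = 1/8`) such that
for every `δ > 0` there are a probability space, a compact convex set `U` inside the ball of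
radius `δ` and an independent sequence of random sets inside the unit ball, all with expectation
`U`, such that the upper limit of the norms of the averages exceeds `ε` for every `ω`. -/
theorem result : BConvex L2 ∧ ∃ ε : ℝ, 0 < ε ∧ ∀ δ : ℝ, 0 < δ →
    ∃ (Ω : Type) (_ : MeasurableSpace Ω) (μ : Measure Ω) (_ : IsProbabilityMeasure μ)
      (U : BC L2) (Ψ : ℕ → Ω → BC L2),
      IsCompact U.carrier ∧ (∀ x ∈ U.carrier, ‖x‖ ≤ δ) ∧
      (∀ n ω, ∀ x ∈ (Ψ n ω).carrier, ‖x‖ ≤ 1) ∧
      (∀ n, IsRandomSet (Ψ n)) ∧ (∀ n, HasExpectation μ (Ψ n) U) ∧ IndependentSets μ Ψ ∧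
      ∀ ω, ε < limsup (fun n => setNorm (average (fun i => Ψ i ω) n)) atTop := by
  refine ⟨bconvex_inner _, 1 / 8, by norm_num, fun δ hδ => ?_⟩
  obtain ⟨Ω, mΩ, μ, hμ, U, Ψ, hc, h1, -, h3, h4, h5, h6, h7⟩ := core δ hδ
  refine ⟨Ω, mΩ, μ, hμ, U, Ψ, hc, h1, h3, h4, h5, h6, fun ω => ?_⟩
  have h := limsup_large (fun i => Ψ i ω) (fun i => h3 i ω) (fun m => h7 ω m)
  exact lt_of_lt_of_le (by norm_num) h

end Pool.Agent.Results.MP_b91784_pr.NoSmallExpectationLaw
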